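import Pool.Agent.W5h28.PD.Main
import Pool.Agent.W5h28.PD.Sharp

/-!
# Distances between the points of arbitrary sets of the plane meet record prime gaps

The plane is `ℂ` with the distance `‖x - y‖`. Let `0 < ε ≤ 1`. There is `κ > 0` such that for all large
real `Z`, with `L(Z) = log Z (log₂ Z)² log₄ Z / (log₃ Z)²` (the size of the largest known prime gaps):

1. Let `X`, `Y` be ARBITRARY finite subsets of the disc of radius `Z` about `0`, the points of each with
   mutual distances at least `1` (for instance integer points), with `|X| |Y| ≥ Z ^ (3 + ε)`, and let `f`, `g`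
   be ARBITRARY real functions on them, such that `‖x - y‖ + f x + g y ≥ Z ^ (ε / 2)` whenever
   `‖x - y‖ ≥ Z ^ (ε / 2)`. Then for some `x ∈ X`, `y ∈ Y` (at distance at least `Z ^ (ε / 2)`) no prime lies
   within `κ L(Z)` of `‖x - y‖ + f x + g y`.
2. Every subset of this disc with at least `Z ^ ((3 + ε) / 2)` points, with mutual distances at least `1`,
   contains two points whose distance is at least `Z ^ (ε / 2)`, and farther than `κ L(Z)` from all primes.
3. The exponent `3` in part 1 is the best possible: for `Z ≥ 3` there are such sets with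
   `|X| |Y| ≥ Z³ / 27`, all distances `≥ Z / 3`, such that for every real `r`, for instance a prime, there are
   `f`, `g` with all values `‖x - y‖ + f x + g y` in `[r, r + 1/4]`.

Proof of 1. By an induction over the scales there are two cells of some side `D`, at a distance comparable
to `D` and not less than `D`, which contain subsets `X'`, `Y'` with `|X'| |Y'| ≥ Z ^ ε D³ / C`. Cut `Y'` into
strips of width `1/2` which are roughly orthogonal to the direction from `Y'` to `X'`. For two points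
`y`, `y'` of a strip the phase `θ (‖x - y‖ - ‖x - y'‖)` varies with `x` along the strip with the speed
`θ ‖y - y'‖ / D`, so the mean square over `x` of the sum over a strip is small; `X'` is replaced by the
plane by an average over small squares. This saves a power of `Z` in the sum over `X' × Y'` of
`e(θ (‖x - y‖ + f x + g y))` for all `θ` between `Z ^ (- ε / 100)` and `Z ^ (ε / 25)`; the covering sieve of
`MP_3bc45c_nt.RecordGaps` in the form for real sequences (`Pool.Agent.TH915.PW.crit_scaled`, starting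
library) does the rest.
-/

set_option autoImplicit false

namespace Pool.Agent.Results.MP_f9960f_nt.PlaneDistances

open Filter

/-- `L(x) = log x (log log x)^2 log log log log x / (log log log x)^2`. -/
noncomputable def L (x : ℝ) : ℝ :=
  Real.log x * (Real.log (Real.log x)) ^ 2 * Real.log (Real.log (Real.log (Real.log x))) /
    (Real.log (Real.log (Real.log x))) ^ 2

/-- `X` is contained in the disc of radius `Z` and its points have mutual distances at least `1`. -/
def Separated (Z : ℝ) (X : Finset ℂ) : Prop :=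
  (∀ x ∈ X, ‖x‖ ≤ Z) ∧ ∀ x ∈ X, ∀ x' ∈ X, x ≠ x' → 1 ≤ ‖x - x'‖

theorem result :
    (∀ ε : ℝ, 0 < ε → ε ≤ 1 → ∃ κ : ℝ, 0 < κ ∧ ∀ᶠ Z : ℝ in atTop,
      (∀ X Y : Finset ℂ, Separated Z X → Separated Z Y →
        Z ^ (3 + ε) ≤ (X.card : ℝ) * Y.card → ∀ f g : ℂ → ℝ,
        (∀ x ∈ X, ∀ y ∈ Y, Z ^ (ε / 2) ≤ ‖x - y‖ → Z ^ (ε / 2) ≤ ‖x - y‖ + f x + g y) →
        ∃ x ∈ X, ∃ y ∈ Y, Z ^ (ε / 2) ≤ ‖x - y‖ ∧
          ∀ p : ℕ, p.Prime → κ * L Z < |(p : ℝ) - (‖x - y‖ + f x + g y)|) ∧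
      ∀ X : Finset ℂ, Separated Z X → Z ^ ((3 + ε) / 2) ≤ (X.card : ℝ) →
        ∃ x ∈ X, ∃ y ∈ X, Z ^ (ε / 2) ≤ ‖x - y‖ ∧
          ∀ p : ℕ, p.Prime → κ * L Z < |(p : ℝ) - ‖x - y‖|) ∧
    ∀ Z : ℝ, 3 ≤ Z → ∃ X Y : Finset ℂ, Separated Z X ∧ Separated Z Y ∧
      Z ^ 3 / 27 ≤ (X.card : ℝ) * Y.card ∧ (∀ x ∈ X, ∀ y ∈ Y, Z / 3 ≤ ‖x - y‖) ∧
      ∀ r : ℝ, ∃ f g : ℂ → ℝ, ∀ x ∈ X, ∀ y ∈ Y,
        r ≤ ‖x - y‖ + f x + g y ∧ ‖x - y‖ + f x + g y ≤ r + 1 / 4 := by
  refine ⟨?_, ?_⟩
  · intro ε hε hε1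
    obtain ⟨κ, hκ, h⟩ := Pool.Agent.W5h28.PD.main ε hε hε1
    refine ⟨κ, hκ, ?_⟩
    filter_upwards [h, eventually_ge_atTop (1 : ℝ)] with Z hZ hZ1
    refine ⟨fun X Y hX hY hc f g hfg => hZ X Y hX.2 hY.2 hX.1 hY.1 hc f g hfg, ?_⟩
    intro X hX hc
    have h1 : Z ^ (3 + ε) ≤ (X.card : ℝ) * X.card := by
      have h2 : Z ^ (3 + ε) = Z ^ ((3 + ε) / 2) * Z ^ ((3 + ε) / 2) := by
        rw [← Real.rpow_add (by linarith)]
        congr 1
        ring
      rw [h2]
      have h3 : 0 ≤ Z ^ ((3 + ε) / 2) := Real.rpow_nonneg (by linarith) _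
      exact mul_le_mul hc hc h3 (h3.trans hc)
    obtain ⟨x, hx, y, hy, h2, h3⟩ := hZ X X hX.2 hX.2 hX.1 hX.1 h1 (fun _ => 0) (fun _ => 0)
      (fun x _ y _ h => by simpa using h)
    refine ⟨x, hx, y, hy, h2, fun p hp => ?_⟩
    have h4 := h3 p hp
    rw [add_zero, add_zero] at h4
    exact h4
  · intro Z hZ
    obtain ⟨X, Y, h1, h2, h3, h4, h5, h6, h7⟩ := Pool.Agent.W5h28.PD.sharp Z hZ
    exact ⟨X, Y, ⟨h3, h1⟩, ⟨h4, h2⟩, h5, h6, h7⟩

end Pool.Agent.Results.MP_f9960f_nt.PlaneDistances
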