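import Pool.Agent.W5h31.TL.TL10

set_option autoImplicit false

/-! # MP_f9960f_nt: how often long runs of composite numbers occur

(a) For `0 < η < 1`, `ε > 0`, `A > 0` and all large `X`: for every set `Z` of at most
`(η/2 - ε) log X log log X` integers in `[1, (log X)^A]` and every `0 ≤ x ≤ exp ((log X)^A)`,
at least `X exp (-(log X)^η)` integers `n ∈ (x, x + X]` make all `n + k`, `k ∈ Z`, composite.

(b) For every `K > 0` there is `η < 1` such that for all large `X` and the same `x`, at least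
`X exp (-(log X)^η)` integers `n ∈ (x, x + X]` have no prime in
`(n, n + K log X log log X]`. -/

namespace Pool.Agent.Results.MP_f9960f_nt.PrimeFreeFrequency

open Filter

open scoped Classical

theorem result :
    (∀ η ε A : ℝ, 0 < η → η < 1 → 0 < ε → 0 < A → ∃ X₀ : ℝ, ∀ X : ℝ, X₀ ≤ X →
      ∀ Z : Finset ℕ, (∀ k ∈ Z, 1 ≤ k ∧ (k : ℝ) ≤ (Real.log X) ^ A) →
        (Z.card : ℝ) ≤ (η / 2 - ε) * Real.log X * Real.log (Real.log X) →
        ∀ x : ℝ, 0 ≤ x → x ≤ Real.exp ((Real.log X) ^ A) →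
          X * Real.exp (-(Real.log X) ^ η) ≤
            (((Finset.Ioc ⌊x⌋₊ ⌊x + X⌋₊).filter (fun n : ℕ => ∀ k ∈ Z,
              ¬ (n + k).Prime ∧ ∃ p : ℕ, p.Prime ∧ p ∣ n + k ∧
                (p : ℝ) ≤ Real.exp (Real.log X / Real.log (Real.log X)))).card : ℝ)) ∧
    (∀ K : ℝ, 0 < K → ∃ η : ℝ, 0 < η ∧ η < 1 ∧ ∀ A : ℝ, 0 < A → ∃ X₀ : ℝ, ∀ X : ℝ, X₀ ≤ X →
      ∀ x : ℝ, 0 ≤ x → x ≤ Real.exp ((Real.log X) ^ A) →
        X * Real.exp (-(Real.log X) ^ η) ≤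
          (((Finset.Ioc ⌊x⌋₊ ⌊x + X⌋₊).filter (fun n : ℕ => ∀ k : ℕ, 1 ≤ k →
            (k : ℝ) ≤ K * Real.log X * Real.log (Real.log X) →
              ¬ (n + k).Prime ∧ ∃ p : ℕ, p.Prime ∧ p ∣ n + k ∧
                (p : ℝ) ≤ Real.exp (Real.log X / Real.log (Real.log X)))).card : ℝ)) := by
  have hcomp : ∀ m p : ℕ, p.Prime → p ∣ m → p < m → ¬ m.Prime := by
    intro m p hp hd hlt hm
    have := (Nat.prime_dvd_prime_iff_eq hp hm).1 hd
    omega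
  constructor
  · intro η ε A hη hη1 hε hA
    obtain ⟨X₀, hX₀⟩ := eventually_atTop.1 (Pool.Agent.W5h31.TL.freq η ε A hη hη1 hε hA)
    refine ⟨X₀, fun X hX Z hZ hZc x hx hxA => ?_⟩
    refine (hX₀ X hX Z hZ hZc x hx hxA).trans ?_
    apply Nat.cast_le.2
    apply Finset.card_le_card
    intro n hn
    rw [Finset.mem_filter] at hn ⊢
    refine ⟨hn.1, fun k hk => ?_⟩
    obtain ⟨p, hp, hp1, hp2, hp3⟩ := hn.2 k hk
    exact ⟨hcomp _ p hp hp2 hp3, p, hp, hp2, hp1⟩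
  · intro K hK
    obtain ⟨η, hη, hη1, h⟩ := Pool.Agent.W5h31.TL.freqK K hK
    refine ⟨η, hη, hη1, fun A hA => ?_⟩
    obtain ⟨X₀, hX₀⟩ := eventually_atTop.1 (h A hA)
    refine ⟨X₀, fun X hX x hx hxA => ?_⟩
    refine (hX₀ X hX x hx hxA).trans ?_
    apply Nat.cast_le.2
    apply Finset.card_le_card
    intro n hn
    rw [Finset.mem_filter] at hn ⊢
    refine ⟨hn.1, fun k hk1 hk2 => ?_⟩
    obtain ⟨p, hp, hp1, hp2, hp3⟩ := hn.2 k hk1 hk2
    exact ⟨hcomp _ p hp hp2 hp3, p, hp, hp2, hp1⟩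

end Pool.Agent.Results.MP_f9960f_nt.PrimeFreeFrequency
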