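import Pool.Agent.W5h31.RC.Fin

set_option autoImplicit false

/-! # MP_f9960f_nt: large gaps between primes with an explicit constant

For every `ε > 0` and all large `X`: there are consecutive primes `p < p'` with `p' ≤ X` and
`p' - p ≥ (1/4 - ε) log X (log₂ X)² log₄ X / (log₃ X)²`; and every real interval `(x, x + X]`
with `x ≥ 0` contains that many consecutive composite numbers. -/

namespace Pool.Agent.Results.MP_f9960f_nt.RecordConstant

open Filter

theorem result : ∀ ε : ℝ, 0 < ε → ∃ X₀ : ℝ, ∀ X : ℝ, X₀ ≤ X →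
    (∃ m : ℕ, (Nat.nth Nat.Prime (m + 1) : ℝ) ≤ X ∧
      (1 / 4 - ε) * (Real.log X * (Real.log (Real.log X)) ^ 2 *
          Real.log (Real.log (Real.log (Real.log X))) /
        (Real.log (Real.log (Real.log X))) ^ 2) ≤
        (Nat.nth Nat.Prime (m + 1) : ℝ) - Nat.nth Nat.Prime m) ∧
    (∀ x : ℝ, 0 ≤ x → ∃ a : ℕ, x < a ∧
      (a : ℝ) + (1 / 4 - ε) * (Real.log X * (Real.log (Real.log X)) ^ 2 *
          Real.log (Real.log (Real.log (Real.log X))) /
        (Real.log (Real.log (Real.log X))) ^ 2) ≤ x + X ∧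
      ∀ k : ℕ, 1 ≤ k →
        (k : ℝ) ≤ (1 / 4 - ε) * (Real.log X * (Real.log (Real.log X)) ^ 2 *
          Real.log (Real.log (Real.log (Real.log X))) /
        (Real.log (Real.log (Real.log X))) ^ 2) →
        2 ≤ a + k ∧ ¬ (a + k).Prime) := by
  intro ε hε
  have h := (Pool.Agent.W5h31.RC.gaps ε hε).and ((Pool.Agent.W5h31.RC.run ε hε).and
    (eventually_ge_atTop (0:ℝ)))
  obtain ⟨X₀, hX₀⟩ := eventually_atTop.1 h
  refine ⟨X₀, fun X hX => ?_⟩
  obtain ⟨h1, h2, h3⟩ := hX₀ X hX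
  refine ⟨h1, fun x hx => ?_⟩
  obtain ⟨a, a0, a1, a2, a3⟩ := h2 x hx
  refine ⟨a, a1, ?_, fun k hk1 hk2 => ⟨by omega, a3 k hk1 hk2⟩⟩
  have a2' : (a : ℝ) + (1 / 4 - ε) * (Real.log X * (Real.log (Real.log X)) ^ 2 *
          Real.log (Real.log (Real.log (Real.log X))) /
        (Real.log (Real.log (Real.log X))) ^ 2) ≤ x + X / 2 := a2
  linarith

end Pool.Agent.Results.MP_f9960f_nt.RecordConstant
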