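import Pool.Agent.W5h1.PB.Fin

set_option autoImplicit false

/-!
# Every large integer is a sum of two integers far from the primes; families of linear forms

Let `f(x) = log x (log₂ x)² log₄ x / (log₃ x)²`, the size of the largest gaps between primes that are known to
occur up to `x` (starting files).

1. Every large `N` is a sum `n₁ + n₂` such that no prime is within `c f(N)` of `n₁` and no prime is within
`c log N log log N` of `n₂`; here `n₁` can be found in every interval of length `N ^ ε` contained in `[0, N]`.
(Gabdullin and Radomskii, on prime avoiding numbers as a basis of order two, have for both distances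
`log N (log log N) ^ (1 / 325565)`.)

2. General form. Linear forms `α n + β` with `1 ≤ |α| ≤ A` and arbitrary `|β| ≤ exp ((log X) ^ D)`, whose number
times `U ≥ (log X) ^ δ` is at most `c log X log log X`, take values without primes at distance `≤ U` at the same
integer `n` of any given interval of length `X`, for which in addition all the multiples `α n`, `1 ≤ |α| ≤ A`, have
no prime at distance `≤ c f(X)`. For instance all members of an arithmetic progression of length `k` with an
arbitrary difference.

Proof (`Pool.Agent.W5h1.PB`). `n` is `0` modulo the medium primes. The windows of the homogeneous forms are treated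
as in the record sieve of the starting files; in a window of length `U` at an arbitrary place the numbers
without medium prime factor are bounded by Selberg's sieve, which gives the gain over the arbitrary sets of
`Pool.Agent.H361R2.PA.record_plus`. The small primes are chosen greedily, and the square sieve covering theorem
(`Pool.Agent.H361R2.PA.coveringD`, after helper256's team) is applied to one representative of each class of
proportional forms.
-/

namespace Pool.Agent.Results.MP_f9960f_nt.SumsOfGapCentres

/-- The record scale `f(x) = log x (log₂ x)² log₄ x / (log₃ x)²` (iterated natural logarithms). -/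
noncomputable def f (x : ℝ) : ℝ :=
  Real.log x * (Real.log (Real.log x)) ^ 2 * Real.log (Real.log (Real.log (Real.log x))) /
    (Real.log (Real.log (Real.log x))) ^ 2

/-- No prime is at distance at most `d` from `x`. -/
def PrimeFree (x d : ℝ) : Prop := ∀ q : ℕ, q.Prime → d < |(q : ℝ) - x|

theorem result :
    (∀ ε : ℝ, 0 < ε → ε ≤ 1 → ∃ c : ℝ, 0 < c ∧ ∃ N₀ : ℕ, ∀ N : ℕ, N₀ ≤ N →
      ∀ M : ℝ, 0 ≤ M → M + (N : ℝ) ^ ε ≤ N → ∃ n₁ n₂ : ℕ, n₁ + n₂ = N ∧ M < n₁ ∧
        (n₁ : ℝ) ≤ M + (N : ℝ) ^ ε ∧ PrimeFree n₁ (c * f N) ∧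
        PrimeFree n₂ (c * (Real.log N * Real.log (Real.log N)))) ∧
    (∀ (D A : ℕ) (δ : ℝ), 0 < δ → ∃ c : ℝ, 0 < c ∧ ∃ X₀ : ℝ, ∀ X : ℝ, X₀ ≤ X →
      ∀ (T : Finset (ℤ × ℤ)) (U : ℝ), (Real.log X) ^ δ ≤ U →
      (T.card : ℝ) * U ≤ c * (Real.log X * Real.log (Real.log X)) →
      (∀ x ∈ T, x.1 ≠ 0 ∧ |x.1| ≤ A ∧ |(x.2 : ℝ)| ≤ Real.exp ((Real.log X) ^ D)) →
      ∀ M : ℝ, ∃ n : ℤ, M < n ∧ (n : ℝ) ≤ M + X ∧
        (∀ α : ℤ, α ≠ 0 → |α| ≤ A → PrimeFree (α * n) (c * f X)) ∧
        ∀ x ∈ T, PrimeFree (x.1 * n + x.2) U) :=
  ⟨fun ε hε hε1 => Pool.Agent.W5h1.PB.sums_main ε hε hε1,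
    fun D A δ hδ => Pool.Agent.W5h1.PB.forms_main D A δ hδ⟩

end Pool.Agent.Results.MP_f9960f_nt.SumsOfGapCentres
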